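import Mathlib
import Pool.Agent.H211TP.Prof

/-!
# A graph profile whose tropicalization is not a polyhedral cone

The collection consists of a pattern graph `P` and of 33 graphs obtained from it (a clique with a tuple vertex, the
pattern without a tuple vertex, two patterns glued along the vertices of some variables; eleven sets of variables).
For these graphs the inequalities between products of densities that are balanced in a suitable sense correspond
exactly to linear information inequalities for four random variables. The infinite family of inequalities of
Matus shows that a certain functional is nonnegative on the face of the tropicalization cut out by another
nonnegative functional, and a family of distributions shows that no linear inequality accounts for this.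
-/

set_option autoImplicit false

namespace Pool.Agent.Results.MP_df81ac_co.NotPolyhedral

open Pool.Agent.H211TP

/-- There is a finite collection of connected graphs for which the tropicalization of the graph profile is not a
polyhedral cone. -/
theorem result : ∃ (s : ℕ) (v : Fin s → ℕ) (C : ∀ i, SimpleGraph (Fin (v i))),
    (∀ i, (C i).Connected) ∧ ¬ IsPolyhedralCone (trop v C) :=
  ⟨ns, nv, cf, cf_connected, not_polyhedral⟩

end Pool.Agent.Results.MP_df81ac_co.NotPolyhedral
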